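import Pool.Agent.Helper45.LinK.GoalsM
import Pool.Agent.Helper95.Lin.Final

/-! Packet GALQ of helper45 (MP_97d78d_ag, MP_5ff3c6_ag). -/

open Complex Metric Set Filter Topology MeasureTheory
open scoped ContDiff ComplexConjugate ComplexOrder Manifold ENNReal

namespace Pool.Agent.Helper33.LinK

open Pool.Agent.Helper95.Lin Pool.Agent.Helper16.Abund Pool.Agent.Helper92.Orb
open Pool.Agent.Helper45.LinK

universe u

theorem GALQ (hmain : S_MAINK) (h1 : S_DKHOLK.{u}) (h2 : S_DKPRK.{u}) (h3 : S_DKCOK.{u})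
    (h4 : S_DKMETK.{u}) (h5 : S_DKLOCK.{0}) (h6 : S_FIBIMK.{u}) : S_GALQ.{u} := by
  intro b k D hD hDc hDb X _ _ _ _ _ g hg P hP hG hQC
  have hcont : Continuous P := hP.2.1.continuous
  have hpr := h2 hD hDc X P hcont hP.2.1
  obtain ⟨h, hh, hinv, hvert⟩ := h4 hD X P hP g hg
  have hΓ : OrbAction (b + k) (DeckK P) (TorTube hD k) := by
    refine ⟨fun γ => h1 hD X P hP γ.1 γ.2, h5 hD (DeckK P) hpr, ?_⟩
    exact h3 hD X P hP.1 hP.2.1 hG
  have hQ : QCFib hD h := by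
    intro K hK hKc
    obtain ⟨C, hC, hC2⟩ := hQC K hK hKc
    refine ⟨C, hC, fun y hy v v' hv => ?_⟩
    rw [hvert y v v, hvert y v' v']
    exact hC2 y hy v v' hv
  obtain ⟨Λ, hΛ, hc⟩ := hmain hD hDc hDb (DeckK P) hΓ hpr
    ⟨h, hh, fun γ => hinv _ (h1 hD X P hP γ.1 γ.2) γ.2, hQ⟩
  have hper : ∀ (m : Fin (2 * k) → ℤ) (y : TorTube hD k), P (latShift hD Λ m y) = P y := by
    intro m y
    obtain ⟨γ, hγ⟩ := hc m
    rw [← hγ y]
    exact γ.2 y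
  refine ⟨?_, h6 hD Λ hΛ X P hcont hper⟩
  exact canSemiample_of_torus_family hD hDc (finiteMass_of_bounded hDb) hΛ.1 hΛ.2
    ⟨g, hg.1, fun V ψ hV hψ => (hg.2 V ψ ⟨hV, hψ⟩).1, fun V ψ hV hψ => (hg.2 V ψ ⟨hV, hψ⟩).2⟩
    P hP.1 hP.2.1 hP.2.2 fun m y y' hy => by
      have e : y' = latShift hD Λ m y := Subtype.ext hy
      rw [e]
      exact hper m y

end Pool.Agent.Helper33.LinK
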