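import Pool.Agent.Helper45.LinK.GoalsN
import Pool.Agent.Helper16.Abund.Several
import Pool.Agent.Helper16.Abund.Torus1

/-! Packet PIC of helper45: linear differential equations along the fibres with holomorphic
parameters (Picard iteration). -/

open Complex Metric Set Filter Topology MeasureTheory
open scoped ContDiff ComplexConjugate ComplexOrder

namespace Pool.Agent.Helper33.LinK.PIC

open Pool.Agent.Helper95.Lin Pool.Agent.Helper16.Abund Pool.Agent.Helper92.Orb
open Pool.Agent.Helper45.LinK

variable {b k : ℕ}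

theorem diff_base : Differentiable ℂ (base : Cn (b + k) → Cn b) := by
  rw [differentiable_pi]
  intro i
  exact (ContinuousLinearMap.proj (R := ℂ) (φ := fun _ : Fin (b + k) => ℂ)
    (Fin.castAdd k i)).differentiable

theorem diff_fib : Differentiable ℂ (fib : Cn (b + k) → Cn k) := by
  rw [differentiable_pi]
  intro i
  exact (ContinuousLinearMap.proj (R := ℂ) (φ := fun _ : Fin (b + k) => ℂ)
    (Fin.natAdd b i)).differentiable

theorem diff_append {F : Type*} [NormedAddCommGroup F] [NormedSpace ℂ F] {f : F → Cn b}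
    {g : F → Cn k} (hf : Differentiable ℂ f) (hg : Differentiable ℂ g) :
    Differentiable ℂ (fun x => (Fin.append (f x) (g x) : Cn (b + k))) := by
  rw [differentiable_pi]
  intro i
  refine Fin.addCases (fun i => ?_) (fun i => ?_) i
  · simp only [Fin.append_left]
    exact (differentiable_pi.1 hf) i
  · simp only [Fin.append_right]
    exact (differentiable_pi.1 hg) i

theorem cont_append {F : Type*} [TopologicalSpace F] {f : F → Cn b}
    {g : F → Cn k} (hf : Continuous f) (hg : Continuous g) :
    Continuous (fun x => (Fin.append (f x) (g x) : Cn (b + k))) := by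
  rw [continuous_pi_iff]
  intro i
  refine Fin.addCases (fun i => ?_) (fun i => ?_) i
  · simp only [Fin.append_left]
    exact (continuous_pi_iff.1 hf) i
  · simp only [Fin.append_right]
    exact (continuous_pi_iff.1 hg) i

/-- Scaling of the fibre coordinate. -/
noncomputable def sc (s : ℝ) (v : Cn (b + k)) : Cn (b + k) :=
  Fin.append (base v) ((s : ℂ) • fib v)

theorem base_sc (s : ℝ) (v : Cn (b + k)) : base (sc s v) = base v := base_append _ _

theorem fib_sc (s : ℝ) (v : Cn (b + k)) : fib (sc s v) = (s : ℂ) • fib v := fib_append _ _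

theorem diff_sc (s : ℝ) : Differentiable ℂ (sc s : Cn (b + k) → Cn (b + k)) :=
  diff_append diff_base (diff_fib.const_smul (s : ℂ))

theorem cont_sc : Continuous (fun p : ℝ × Cn (b + k) => sc p.1 p.2) := by
  apply cont_append
  · exact diff_base.continuous.comp continuous_snd
  · exact (Complex.continuous_ofReal.comp continuous_fst).smul
      (diff_fib.continuous.comp continuous_snd)

theorem norm_fib_sc (s : ℝ) (hs : 0 ≤ s) (v : Cn (b + k)) : ‖fib (sc s v)‖ = s * ‖fib v‖ := by
  rw [fib_sc, norm_smul, Complex.norm_real, Real.norm_of_nonneg hs]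

/-- Bounds for iterated integrals. -/
theorem bound {N : Cn (b + k) → Cn k →L[ℂ] CE k} {K : Set (Cn b)} {R c B : ℝ}
    (hN : ∀ v, base v ∈ K → ‖fib v‖ ≤ R → ‖N v‖ ≤ c) (J : ℕ → Cn (b + k) → CE k)
    (hJ : ∀ n v, base v ∈ K → J (n + 1) v =
      ∫ s in (0 : ℝ)..1, J n (sc s v) * N (sc s v) (fib v))
    (h0 : ∀ v, base v ∈ K → ‖fib v‖ ≤ R → ‖J 0 v‖ ≤ B) :
    ∀ n v, base v ∈ K → ‖fib v‖ ≤ R → ‖J n v‖ ≤ B * (c * ‖fib v‖) ^ n / n.factorial := by
  intro n
  induction n with
  | zero => intro v hv hR; simpa using h0 v hv hR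
  | succ n ih =>
    intro v hv hR
    rw [hJ n v hv]
    have hbd : ∀ᵐ t, t ∈ Set.Ioc (0 : ℝ) 1 → ‖J n (sc t v) * N (sc t v) (fib v)‖ ≤
        (B * (c * ‖fib v‖) ^ (n + 1) / n.factorial) * t ^ n := by
      refine Filter.Eventually.of_forall fun t ht => ?_
      have hb : base (sc t v) ∈ K := by rw [base_sc]; exact hv
      have hf : ‖fib (sc t v)‖ = t * ‖fib v‖ := norm_fib_sc t ht.1.le v
      have hf' : ‖fib (sc t v)‖ ≤ R := by
        rw [hf]
        have := norm_nonneg (fib v)
        nlinarith [ht.2]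
      have h1 := ih (sc t v) hb hf'
      have h2 : ‖N (sc t v) (fib v)‖ ≤ c * ‖fib v‖ :=
        (ContinuousLinearMap.le_opNorm _ _).trans
          (mul_le_mul_of_nonneg_right (hN _ hb hf') (norm_nonneg _))
      calc ‖J n (sc t v) * N (sc t v) (fib v)‖ ≤ ‖J n (sc t v)‖ * ‖N (sc t v) (fib v)‖ :=
            norm_mul_le _ _
        _ ≤ (B * (c * ‖fib (sc t v)‖) ^ n / n.factorial) * (c * ‖fib v‖) :=
            mul_le_mul h1 h2 (norm_nonneg _) ((norm_nonneg _).trans h1)
        _ = _ := by
            rw [hf]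
            ring
    have hint : IntervalIntegrable (fun t : ℝ => (B * (c * ‖fib v‖) ^ (n + 1) / n.factorial) *
        t ^ n) volume 0 1 := by
      apply Continuous.intervalIntegrable
      fun_prop
    refine (intervalIntegral.norm_integral_le_of_norm_le zero_le_one hbd hint).trans ?_
    rw [intervalIntegral.integral_const_mul, integral_pow]
    have hfac : ((n + 1).factorial : ℝ) = ((n : ℝ) + 1) * n.factorial := by
      rw [Nat.factorial_succ]; push_cast; ring
    rw [hfac]
    have h3 : (n.factorial : ℝ) ≠ 0 := by positivity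
    have h4 : ((n : ℝ) + 1) ≠ 0 := by positivity
    apply le_of_eq
    simp only [one_pow, ne_eq, Nat.add_eq_zero_iff, one_ne_zero, and_false, not_false_eq_true,
      zero_pow, sub_zero]
    field_simp

/-- The Picard iterates. -/
noncomputable def It (N : Cn (b + k) → Cn k →L[ℂ] CE k) : ℕ → Cn (b + k) → CE k
  | 0, _ => 1
  | (n + 1), v => ∫ s in (0 : ℝ)..1, It N n (sc s v) * N (sc s v) (fib v)

variable {D : Set (Cn b)}

theorem sc_mem {v : Cn (b + k)} (hv : v ∈ tubeK D k) (s : ℝ) : sc s v ∈ tubeK D k := by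
  change base (sc s v) ∈ D
  rw [base_sc]; exact hv

theorem isOpen_tubeK (hD : IsOpen D) : IsOpen (tubeK D k) :=
  hD.preimage diff_base.continuous

theorem It_holo (hint : S_INTH) (hD : IsOpen D) {N : Cn (b + k) → Cn k →L[ℂ] CE k}
    (hN : DifferentiableOn ℂ N (tubeK D k)) (n : ℕ) :
    DifferentiableOn ℂ (It N n) (tubeK D k) := by
  induction n with
  | zero => exact differentiableOn_const _
  | succ n ih =>
    refine hint (isOpen_tubeK hD) (fun s v => It N n (sc s v) * N (sc s v) (fib v)) ?_ ?_
    · intro s _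
      have hm : MapsTo (sc s) (tubeK D k) (tubeK D k) := fun v hv => sc_mem hv s
      have h1 : DifferentiableOn ℂ (fun v => It N n (sc s v)) (tubeK D k) :=
        DifferentiableOn.comp (E := Cn (b + k)) (F := Cn (b + k)) (G := CE k) ih
          (diff_sc s).differentiableOn hm
      have h2 : DifferentiableOn ℂ (fun v => N (sc s v)) (tubeK D k) :=
        DifferentiableOn.comp (E := Cn (b + k)) (F := Cn (b + k)) (G := Cn k →L[ℂ] CE k) hN
          (diff_sc s).differentiableOn hm
      exact h1.mul (h2.clm_apply diff_fib.differentiableOn)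
    · have hm : MapsTo (fun p : ℝ × Cn (b + k) => sc p.1 p.2) (Icc (0 : ℝ) 1 ×ˢ tubeK D k)
          (tubeK D k) := fun p hp => sc_mem hp.2 p.1
      have h1 := ih.continuousOn.comp cont_sc.continuousOn hm
      have h2 := hN.continuousOn.comp cont_sc.continuousOn hm
      exact h1.mul (h2.clm_apply (diff_fib.continuous.comp continuous_snd).continuousOn)

theorem cont_ray {N : Cn (b + k) → Cn k →L[ℂ] CE k} (hN : ContinuousOn N (tubeK D k))
    {v : Cn (b + k)} (hv : v ∈ tubeK D k) : Continuous fun s : ℝ => N (sc s v) := by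
  have h1 : Continuous fun s : ℝ => sc s v :=
    cont_sc.comp (Continuous.prodMk continuous_id continuous_const)
  exact hN.comp_continuous h1 fun s => sc_mem hv s

theorem cont_ray' {J : Cn (b + k) → CE k} (hJ : ContinuousOn J (tubeK D k))
    {v : Cn (b + k)} (hv : v ∈ tubeK D k) : Continuous fun s : ℝ => J (sc s v) := by
  have h1 : Continuous fun s : ℝ => sc s v :=
    cont_sc.comp (Continuous.prodMk continuous_id continuous_const)
  exact hJ.comp_continuous h1 fun s => sc_mem hv s

/-- The integral equation. -/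
theorem integral_eq {N : Cn (b + k) → Cn k →L[ℂ] CE k}
    (hN : DifferentiableOn ℂ N (tubeK D k)) (G : Cn (b + k) → CE k)
    (hG : ∀ z ∈ D, Differentiable ℂ fun w : Cn k => G (Fin.append z w))
    (hG1 : ∀ z ∈ D, G (Fin.append z 0) = 1)
    (hG2 : ∀ z ∈ D, ∀ w u u' : Cn k, fderiv ℂ (fun w : Cn k => G (Fin.append z w)) w u u' =
      G (Fin.append z w) (N (Fin.append z w) u u')) {v : Cn (b + k)} (hv : v ∈ tubeK D k) :
    (Continuous fun s : ℝ => G (sc s v)) ∧
    G v - 1 = ∫ s in (0 : ℝ)..1, G (sc s v) * N (sc s v) (fib v) := by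
  have hz : base v ∈ D := hv
  have hc : Continuous fun s : ℝ => G (sc s v) := by
    have h1 := (hG (base v) hz).continuous
    exact h1.comp (Complex.continuous_ofReal.smul continuous_const)
  refine ⟨hc, ?_⟩
  have hder : ∀ s : ℝ, HasDerivAt (fun s : ℝ => G (sc s v))
      (G (sc s v) * N (sc s v) (fib v)) s := by
    intro s
    have h1 : HasFDerivAt (fun w : Cn k => G (Fin.append (base v) w))
        (fderiv ℂ (fun w : Cn k => G (Fin.append (base v) w)) ((s : ℂ) • fib v))
        ((s : ℂ) • fib v) := (hG (base v) hz _).hasFDerivAt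
    have h2 : HasDerivAt (fun s : ℝ => (s : ℂ) • fib v) (fib v) s := by
      have := (Complex.ofRealCLM.hasDerivAt (x := s)).smul_const (fib v)
      simpa using this
    have h3 := (h1.restrictScalars ℝ).comp_hasDerivAt s h2
    have h4 : ((fderiv ℂ (fun w : Cn k => G (Fin.append (base v) w))
        ((s : ℂ) • fib v)).restrictScalars ℝ) (fib v) = G (sc s v) * N (sc s v) (fib v) := by
      ext1 u'
      exact hG2 (base v) hz ((s : ℂ) • fib v) (fib v) u'
    rw [h4] at h3
    exact h3
  have hci : Continuous fun s : ℝ => G (sc s v) * N (sc s v) (fib v) :=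
    hc.mul ((cont_ray hN.continuousOn hv).clm_apply continuous_const)
  have h5 := intervalIntegral.integral_eq_sub_of_hasDerivAt (a := 0) (b := 1)
    (fun s _ => hder s) (hci.intervalIntegrable 0 1)
  rw [h5]
  have e1 : sc 1 v = v := by
    unfold sc
    rw [Complex.ofReal_one, one_smul, append_base_fib]
  have e0 : G (sc 0 v) = 1 := by
    unfold sc
    rw [Complex.ofReal_zero, zero_smul]
    exact hG1 (base v) hz
  rw [e1, e0]

/-- The error terms. -/
noncomputable def Er (N : Cn (b + k) → Cn k →L[ℂ] CE k) (G : Cn (b + k) → CE k) (n : ℕ)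
    (v : Cn (b + k)) : CE k := G v - ∑ j ∈ Finset.range n, It N j v

theorem Er_succ (hint : S_INTH) (hD : IsOpen D) {N : Cn (b + k) → Cn k →L[ℂ] CE k}
    (hN : DifferentiableOn ℂ N (tubeK D k)) (G : Cn (b + k) → CE k)
    (hG : ∀ z ∈ D, Differentiable ℂ fun w : Cn k => G (Fin.append z w))
    (hG1 : ∀ z ∈ D, G (Fin.append z 0) = 1)
    (hG2 : ∀ z ∈ D, ∀ w u u' : Cn k, fderiv ℂ (fun w : Cn k => G (Fin.append z w)) w u u' =
      G (Fin.append z w) (N (Fin.append z w) u u')) (n : ℕ) {v : Cn (b + k)}
    (hv : v ∈ tubeK D k) :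
    Er N G (n + 1) v = ∫ s in (0 : ℝ)..1, Er N G n (sc s v) * N (sc s v) (fib v) := by
  obtain ⟨hc, he⟩ := integral_eq hN G hG hG1 hG2 hv
  have hNc : Continuous fun s : ℝ => N (sc s v) (fib v) :=
    (cont_ray hN.continuousOn hv).clm_apply continuous_const
  have h1 : ∀ s : ℝ, Er N G n (sc s v) * N (sc s v) (fib v) =
      G (sc s v) * N (sc s v) (fib v) -
        ∑ j ∈ Finset.range n, It N j (sc s v) * N (sc s v) (fib v) := by
    intro s
    unfold Er
    rw [sub_mul, Finset.sum_mul]
  have hj : ∀ j : ℕ, Continuous fun s : ℝ => It N j (sc s v) * N (sc s v) (fib v) := fun j =>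
    (cont_ray' (It_holo hint hD hN j).continuousOn hv).mul hNc
  have hcN : Continuous fun s : ℝ => G (sc s v) * N (sc s v) (fib v) := hc.mul hNc
  have hsN : Continuous fun s : ℝ =>
      ∑ j ∈ Finset.range n, It N j (sc s v) * N (sc s v) (fib v) :=
    continuous_finsetSum _ fun j _ => hj j
  rw [intervalIntegral.integral_congr (fun s _ => h1 s),
    intervalIntegral.integral_sub (hcN.intervalIntegrable 0 1) (hsN.intervalIntegrable 0 1),
    intervalIntegral.integral_finsetSum fun j _ => (hj j).intervalIntegrable 0 1, ← he]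
  have h2 : ∀ j : ℕ, (∫ s in (0 : ℝ)..1, It N j (sc s v) * N (sc s v) (fib v)) =
      It N (j + 1) v := fun j => rfl
  rw [Finset.sum_congr rfl fun j _ => h2 j]
  unfold Er
  rw [Finset.sum_range_succ']
  have h3 : It N 0 v = 1 := rfl
  rw [h3]
  abel

theorem thm (hint : S_INTH) : S_PIC := by
  intro b k D hD N hN G hG hG1 hG2 hbd v₀ hv₀
  have hz₀ : base v₀ ∈ D := hv₀
  obtain ⟨r, hr, hrD⟩ := Metric.isOpen_iff.1 hD (base v₀) hz₀
  set K : Set (Cn b) := closedBall (base v₀) (r / 2) with hKdef
  have hKD : K ⊆ D := (closedBall_subset_ball (by linarith)).trans hrD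
  have hKc : IsCompact K := isCompact_closedBall _ _
  set R : ℝ := ‖fib v₀‖ + 1 with hRdef
  have hR : 0 ≤ R := by positivity
  obtain ⟨B, hB⟩ := hbd K hKD hKc R
  -- bound for N
  have hΩ : IsCompact ((fun p : Cn b × Cn k => (Fin.append p.1 p.2 : Cn (b + k))) ''
      (K ×ˢ closedBall (0 : Cn k) R)) :=
    (hKc.prod (isCompact_closedBall _ _)).image (cont_append continuous_fst continuous_snd)
  have hΩM : ((fun p : Cn b × Cn k => (Fin.append p.1 p.2 : Cn (b + k))) ''
      (K ×ˢ closedBall (0 : Cn k) R)) ⊆ tubeK D k := by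
    rintro _ ⟨p, hp, rfl⟩
    change base (Fin.append p.1 p.2) ∈ D
    rw [base_append]
    exact hKD hp.1
  have hNcΩ := hN.continuousOn.mono hΩM
  obtain ⟨c, hc⟩ := IsCompact.exists_bound_of_continuousOn (E := Cn k →L[ℂ] CE k) hΩ hNcΩ
  have hmemΩ : ∀ v : Cn (b + k), base v ∈ K → ‖fib v‖ ≤ R →
      v ∈ ((fun p : Cn b × Cn k => (Fin.append p.1 p.2 : Cn (b + k))) ''
      (K ×ˢ closedBall (0 : Cn k) R)) := by
    intro v hv hw
    exact ⟨(base v, fib v), ⟨hv, by simpa using hw⟩, append_base_fib v⟩
  have hNb : ∀ v : Cn (b + k), base v ∈ K → ‖fib v‖ ≤ R → ‖N v‖ ≤ c :=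
    fun v hv hw => hc v (hmemΩ v hv hw)
  have hc0 : 0 ≤ c := by
    have h1 : ‖N v₀‖ ≤ c := hNb v₀ (mem_closedBall_self (by positivity)) (by rw [hRdef]; linarith)
    have h2 : 0 ≤ ‖N v₀‖ := norm_nonneg (N v₀)
    exact h2.trans h1
  have hI := bound hNb (It N) (fun n v _ => rfl) (B := 1) (fun v _ _ =>
    ContinuousLinearMap.norm_id_le)
  have hE := bound hNb (Er N G) (fun n v hv => Er_succ hint hD hN G hG hG1 hG2 n (hKD hv))
    (B := B) (fun v hv hw => by
      have e : Er N G 0 v = G (Fin.append (base v) (fib v)) := by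
        unfold Er
        rw [Finset.sum_range_zero, sub_zero, append_base_fib]
      rw [e]
      exact hB (base v) hv (fib v) hw)
  -- the neighbourhood
  set U : Set (Cn (b + k)) := {v | base v ∈ ball (base v₀) (r / 2) ∧ ‖fib v‖ < R} with hUdef
  have hUo : IsOpen U := by
    apply IsOpen.inter
    · exact isOpen_ball.preimage diff_base.continuous
    · exact isOpen_lt (diff_fib.continuous.norm) continuous_const
  have hv₀U : v₀ ∈ U := ⟨mem_ball_self (by positivity), by rw [hRdef]; linarith⟩
  have hUM : U ⊆ tubeK D k := fun v hv => hKD (ball_subset_closedBall hv.1)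
  have hsum : Summable fun n : ℕ => (c * R) ^ n / n.factorial := Real.summable_pow_div_factorial _
  have hIb : ∀ n, ∀ v ∈ U, ‖It N n v‖ ≤ (c * R) ^ n / n.factorial := by
    intro n v hv
    refine (hI n v (ball_subset_closedBall hv.1) hv.2.le).trans ?_
    rw [one_mul]
    have : c * ‖fib v‖ ≤ c * R := mul_le_mul_of_nonneg_left hv.2.le hc0
    gcongr
  have hdiff := differentiableOn_tsum (f := It N) (u := fun n : ℕ => (c * R) ^ n / n.factorial)
    hUo (fun n => (It_holo hint hD hN n).mono hUM) hsum hIb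
  have heq : ∀ v ∈ U, G v = ∑' n, It N n v := by
    intro v hv
    have hs : Summable fun n => It N n v := Summable.of_norm_bounded hsum fun n => hIb n v hv
    have h1 := hs.hasSum.tendsto_sum_nat
    have h2 : Tendsto (fun n => Er N G n v) atTop (𝓝 0) := by
      have h3 : Tendsto (fun n : ℕ => B * (c * ‖fib v‖) ^ n / n.factorial) atTop (𝓝 0) := by
        have h4 := (FloorSemiring.tendsto_pow_div_factorial_atTop (c * ‖fib v‖)).const_mul B
        rw [mul_zero] at h4
        refine h4.congr fun n => ?_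
        ring
      exact squeeze_zero_norm (fun n => hE n v (ball_subset_closedBall hv.1) hv.2.le) h3
    have h5 : Tendsto (fun n => ∑ j ∈ Finset.range n, It N j v) atTop (𝓝 (G v)) := by
      have h6 := (tendsto_const_nhds (x := G v)).sub h2
      rw [sub_zero] at h6
      refine h6.congr fun n => ?_
      unfold Er
      abel
    exact tendsto_nhds_unique h5 h1
  have hG' : DifferentiableOn ℂ G U := hdiff.congr heq
  exact (hG'.differentiableAt (hUo.mem_nhds hv₀U)).differentiableWithinAt

end Pool.Agent.Helper33.LinK.PIC
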